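import Mathlib

/-!
EPPA for finite three-graphs, part 1: hypergraphs defined from a two-class partition and a symmetric
function to `ZMod 2`.
-/

set_option autoImplicit false
open Classical

namespace Pool.Agent.H352_eppa

/-- sum of `G` over the cross pairs of `e` -/
noncomputable def q {X : Type} (c : X → Bool) (G : X → X → ZMod 2) (e : Finset X) : ZMod 2 :=
  ∑ x ∈ e.filter (fun x => c x = false), ∑ y ∈ e.filter (fun y => c y = true), G x y

/-- the hyperedges: two vertices in each class and odd cross sum -/
def IsH {X : Type} (c : X → Bool) (G : X → X → ZMod 2) (e : Finset X) : Prop :=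
  (e.filter (fun x => c x = false)).card = 2 ∧ (e.filter (fun x => c x = true)).card = 2 ∧ q c G e = 1

theorem q_symm {X : Type} (c : X → Bool) (G : X → X → ZMod 2) (hG : ∀ x y, G x y = G y x)
    (e : Finset X) (b : Bool) :
    q c G e = ∑ x ∈ e.filter (fun x => c x = b), ∑ y ∈ e.filter (fun y => c y = !b), G x y := by
  cases b with
  | false => rfl
  | true =>
    unfold q
    rw [Finset.sum_comm]
    refine Finset.sum_congr rfl fun y _ => Finset.sum_congr rfl fun x _ => hG x y

theorem isH_symm {X : Type} (c : X → Bool) (G : X → X → ZMod 2) (hG : ∀ x y, G x y = G y x)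
    (e : Finset X) (b : Bool) :
    IsH c G e ↔ (e.filter (fun x => c x = b)).card = 2 ∧ (e.filter (fun x => c x = !b)).card = 2 ∧
      ∑ x ∈ e.filter (fun x => c x = b), ∑ y ∈ e.filter (fun y => c y = !b), G x y = 1 := by
  rw [← q_symm c G hG e b]
  unfold IsH
  cases b
  · simp
  · simp; tauto

theorem card_split {X : Type} (c : X → Bool) (e : Finset X) (b : Bool) :
    (e.filter (fun x => c x = b)).card + (e.filter (fun x => c x = !b)).card = e.card := by
  have h := Finset.card_filter_add_card_filter_not (s := e) (fun x => c x = b)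
  have h2 : (e.filter (fun x => c x = !b)) = e.filter (fun x => ¬ c x = b) := by
    refine Finset.filter_congr fun x _ => ?_
    cases c x <;> cases b <;> simp
  rw [h2]
  exact h

theorem even_aux {X : Type} (c : X → Bool) (G : X → X → ZMod 2)
    (hG : ∀ x y, G x y = G y x) (S : Finset X) (b : Bool)
    (h3 : (S.filter (fun x => c x = b)).card = 3) (h2 : (S.filter (fun x => c x = !b)).card = 2)
    (H : Finset (Finset X)) (hH : ∀ e, e ∈ H ↔ IsH c G e) :
    Even (H.filter (fun e => e ⊆ S)).card := by
  have hS5 : S.card = 5 := by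
    have := card_split c S b
    omega
  set Sb := S.filter (fun x => c x = b) with hSb
  set Sn := S.filter (fun x => c x = !b) with hSn
  -- the sum attached to a vertex
  set R : X → ZMod 2 := fun x => ∑ y ∈ Sn, G x y with hR
  have herase_b : ∀ x ∈ Sb, (S.erase x).filter (fun z => c z = b) = Sb.erase x := by
    intro x _
    rw [hSb, Finset.filter_erase]
  have herase_n : ∀ x ∈ Sb, (S.erase x).filter (fun z => c z = !b) = Sn := by
    intro x hx
    rw [hSn, Finset.filter_erase, Finset.erase_eq_of_notMem]
    intro hx2
    rw [hSb, Finset.mem_filter] at hx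
    rw [Finset.mem_filter] at hx2
    have h1 := hx.2
    have h2 := hx2.2
    rw [h1] at h2
    cases b <;> simp at h2
  have hq : ∀ x ∈ Sb, (IsH c G (S.erase x) ↔ ∑ z ∈ Sb.erase x, R z = 1) := by
    intro x hx
    rw [isH_symm c G hG _ b, herase_b x hx, herase_n x hx, Finset.card_erase_of_mem hx, h3, h2]
    simp [hR]
  have himg : H.filter (fun e => e ⊆ S) =
      (Sb.filter (fun x => ∑ z ∈ Sb.erase x, R z = 1)).image (fun x => S.erase x) := by
    ext e
    simp only [Finset.mem_filter, Finset.mem_image]
    constructor
    · rintro ⟨he, heS⟩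
      rw [hH] at he
      have he' := (isH_symm c G hG e b).1 he
      have hcard : e.card = 4 := by
        have := card_split c e b
        omega
      have hd : (S \ e).card = 1 := by
        have := Finset.card_sdiff_add_card_eq_card heS
        omega
      obtain ⟨x, hx⟩ := Finset.card_eq_one.1 hd
      have hxm : x ∈ S \ e := by rw [hx]; simp
      rw [Finset.mem_sdiff] at hxm
      have hee : e = S.erase x := by
        rw [← Finset.sdiff_singleton_eq_erase, ← hx, Finset.sdiff_sdiff_eq_self heS]
      have hxb : x ∈ Sb := by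
        rw [hSb, Finset.mem_filter]
        refine ⟨hxm.1, ?_⟩
        by_contra hne
        have hfb : e.filter (fun z => c z = b) = Sb := by
          rw [hee, hSb, Finset.filter_erase, Finset.erase_eq_of_notMem]
          intro h'
          rw [Finset.mem_filter] at h'
          exact hne h'.2
        rw [hfb, h3] at he'
        exact absurd he'.1 (by norm_num)
      refine ⟨x, ⟨hxb, ?_⟩, hee.symm⟩
      rw [← hq x hxb, ← hee]
      exact he
    · rintro ⟨x, ⟨hxb, hx1⟩, rfl⟩
      refine ⟨?_, Finset.erase_subset _ _⟩
      rw [hH, hq x hxb]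
      exact hx1
  have hinj : Set.InjOn (fun x => S.erase x) (Sb.filter (fun x => ∑ z ∈ Sb.erase x, R z = 1) : Set X) := by
    intro x hx y hy hxy
    have hxS : x ∈ S := by
      have : x ∈ Sb := (Finset.mem_filter.1 hx).1
      exact (Finset.mem_filter.1 this).1
    exact (Finset.erase_inj S hxS).1 hxy
  rw [himg, Finset.card_image_of_injOn hinj]
  -- parity
  have hsum : ∑ x ∈ Sb, ∑ z ∈ Sb.erase x, R z = 0 := by
    have h1 : ∀ x ∈ Sb, ∑ z ∈ Sb.erase x, R z = (∑ z ∈ Sb, R z) - R x := by
      intro x hx
      rw [← Finset.add_sum_erase Sb R hx]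
      ring
    rw [Finset.sum_congr rfl h1, Finset.sum_sub_distrib, Finset.sum_const, h3]
    have h2' : (2 : ZMod 2) = 0 := by decide
    have : (3 : ℕ) • (∑ z ∈ Sb, R z) - ∑ z ∈ Sb, R z = 2 * (∑ z ∈ Sb, R z) := by
      rw [nsmul_eq_mul]; push_cast; ring
    rw [this, h2', zero_mul]
  have hval : ∀ a : ZMod 2, a = if a = 1 then 1 else 0 := by decide
  have hsum2 : ∑ x ∈ Sb, ∑ z ∈ Sb.erase x, R z =
      ((Sb.filter (fun x => ∑ z ∈ Sb.erase x, R z = 1)).card : ZMod 2) := by
    rw [Finset.card_filter]
    push_cast
    refine Finset.sum_congr rfl fun x _ => ?_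
    exact hval _
  rw [hsum2] at hsum
  rw [ZMod.natCast_eq_zero_iff] at hsum
  exact even_iff_two_dvd.2 hsum

/-- the three-graph axioms for the hypergraph defined by `c` and `G` -/
theorem axioms {X : Type} (c : X → Bool) (G : X → X → ZMod 2)
    (hG : ∀ x y, G x y = G y x) (r : X → X → Prop) (hr : ∀ x y, r x y ↔ c x = c y)
    (H : Finset (Finset X)) (hH : ∀ e, e ∈ H ↔ IsH c G e) :
    Equivalence r ∧ (∀ x y z, r x y ∨ r y z ∨ r x z) ∧
      (∀ e ∈ H, e.card = 4 ∧ ∀ v ∈ e, (e.filter (fun w => r v w)).card = 2) ∧
      (∀ S : Finset X, S.card = 5 →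
        (∀ v ∈ S, (S.filter (fun w => r v w)).card ≤ 3) →
          Even (H.filter (fun e => e ⊆ S)).card) := by
  have hfil : ∀ (S : Finset X) (v : X), S.filter (fun w => r v w) = S.filter (fun w => c w = c v) := by
    intro S v
    refine Finset.filter_congr fun w _ => ?_
    rw [hr]
    exact eq_comm
  refine ⟨⟨fun x => (hr x x).2 rfl, fun {x y} h => (hr y x).2 ((hr x y).1 h).symm,
    fun {x y z} h1 h2 => (hr x z).2 (((hr x y).1 h1).trans ((hr y z).1 h2))⟩, ?_, ?_, ?_⟩
  · intro x y z
    rw [hr, hr, hr]
    cases c x <;> cases c y <;> cases c z <;> simp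
  · intro e he
    rw [hH] at he
    refine ⟨?_, ?_⟩
    · have := card_split c e false
      have h1 := he.1
      have h2 := he.2.1
      simp only [Bool.not_false] at this
      omega
    · intro v _
      rw [hfil]
      cases c v
      · exact he.1
      · exact he.2.1
  · intro S hS h3
    have hs := card_split c S false
    simp only [Bool.not_false] at hs
    have hle : ∀ b : Bool, (S.filter (fun x => c x = b)).card ≤ 3 := by
      intro b
      by_contra hcon
      have hne : (S.filter (fun x => c x = b)).Nonempty := by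
        rw [← Finset.card_pos]; omega
      obtain ⟨v, hv⟩ := hne
      rw [Finset.mem_filter] at hv
      have := h3 v hv.1
      rw [hfil, hv.2] at this
      exact hcon this
    have hf := hle false
    have ht := hle true
    have hcase : ((S.filter (fun x => c x = false)).card = 3 ∧ (S.filter (fun x => c x = true)).card = 2) ∨
      ((S.filter (fun x => c x = true)).card = 3 ∧ (S.filter (fun x => c x = false)).card = 2) := by
      omega
    rcases hcase with ⟨ha, hb⟩ | ⟨ha, hb⟩
    · exact even_aux c G hG S false ha hb H hH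
    · exact even_aux c G hG S true ha hb H hH

/-- a permutation that respects or swaps the classes and changes `G` by a coboundary preserves the
hyperedges -/
theorem isH_map {X Y : Type} (c : X → Bool) (G : X → X → ZMod 2)
    (c' : Y → Bool) (G' : Y → Y → ZMod 2)
    (hG' : ∀ x y, G' x y = G' y x) (σ : X ↪ Y) (ε : Bool) (t : X → ZMod 2)
    (hc : ∀ x, c' (σ x) = xor (c x) ε)
    (hσ : ∀ x y, c x ≠ c y → G' (σ x) (σ y) = G x y + t x + t y) (e : Finset X) :
    IsH c G e ↔ IsH c' G' (e.map σ) := by
  have hfil : ∀ b : Bool, (e.map σ).filter (fun y => c' y = xor b ε) =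
      (e.filter (fun x => c x = b)).map σ := by
    intro b
    rw [Finset.filter_map]
    congr 1
    refine Finset.filter_congr fun x _ => ?_
    simp only [Function.comp_apply, hc]
    cases c x <;> cases b <;> cases ε <;> simp
  rw [isH_symm c' G' hG' (e.map σ) (xor false ε)]
  have hn : (!(xor false ε)) = xor true ε := by cases ε <;> rfl
  rw [hn, hfil false, hfil true, Finset.card_map, Finset.card_map, Finset.sum_map]
  unfold IsH
  refine and_congr_right fun h0 => and_congr_right fun h1 => ?_
  have key : ∑ x ∈ e.filter (fun x => c x = false), ∑ y ∈ (e.filter (fun x => c x = true)).map σ, G' (σ x) y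
      = q c G e := by
    unfold q
    have h2' : (2 : ZMod 2) = 0 := by decide
    have hstep : ∀ x ∈ e.filter (fun x => c x = false),
        ∑ y ∈ (e.filter (fun x => c x = true)).map σ, G' (σ x) y =
        ∑ y ∈ e.filter (fun x => c x = true), G x y + ∑ y ∈ e.filter (fun x => c x = true), t y := by
      intro x hx
      rw [Finset.sum_map, ← Finset.sum_add_distrib]
      have h3 : ∀ y ∈ e.filter (fun x => c x = true), G' (σ x) (σ y) = G x y + t y + t x := by
        intro y hy
        rw [hσ x y ?_]
        · ring
        · rw [(Finset.mem_filter.1 hx).2, (Finset.mem_filter.1 hy).2]; simp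
      rw [Finset.sum_congr rfl h3, Finset.sum_add_distrib, Finset.sum_const, h1, nsmul_eq_mul]
      push_cast
      rw [h2', zero_mul, add_zero]
    rw [Finset.sum_congr rfl hstep, Finset.sum_add_distrib, Finset.sum_const, h0, nsmul_eq_mul]
    push_cast
    rw [h2', zero_mul, add_zero]
  rw [key]

end Pool.Agent.H352_eppa
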