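import Pool.Agent.H352_eppa.Repr

/-!
EPPA for finite three-graphs, part 3: the extension of partial automorphisms.
-/

set_option autoImplicit false
open Classical

namespace Pool.Agent.H352_eppa

theorem isH_four {X : Type} [DecidableEq X] (c : X → Bool) (G : X → X → ZMod 2)
    (hG : ∀ x y, G x y = G y x) (b : Bool) (x x' y y' : X)
    (hx : c x = b) (hx' : c x' = b) (hy : c y = !b) (hy' : c y' = !b) (hxx : x ≠ x') (hyy : y ≠ y') :
    IsH c G ({x, x', y, y'} : Finset X) ↔ G x y + G x y' + G x' y + G x' y' = 1 := by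
  rw [isH_symm c G hG _ b]
  have h0 : ({x, x', y, y'} : Finset X).filter (fun z => c z = b) = {x, x'} := by
    ext z
    simp only [Finset.mem_filter, Finset.mem_insert, Finset.mem_singleton]
    constructor
    · rintro ⟨h1 | h1 | h1 | h1, h2⟩
      · exact Or.inl h1
      · exact Or.inr h1
      · rw [h1, hy] at h2; cases b <;> simp at h2
      · rw [h1, hy'] at h2; cases b <;> simp at h2
    · rintro (h1 | h1)
      · exact ⟨Or.inl h1, by rw [h1]; exact hx⟩
      · exact ⟨Or.inr (Or.inl h1), by rw [h1]; exact hx'⟩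
  have h1 : ({x, x', y, y'} : Finset X).filter (fun z => c z = !b) = {y, y'} := by
    ext z
    simp only [Finset.mem_filter, Finset.mem_insert, Finset.mem_singleton]
    constructor
    · rintro ⟨h1 | h1 | h1 | h1, h2⟩
      · rw [h1, hx] at h2; cases b <;> simp at h2
      · rw [h1, hx'] at h2; cases b <;> simp at h2
      · exact Or.inl h1
      · exact Or.inr h1
    · rintro (h1 | h1)
      · exact ⟨Or.inr (Or.inr (Or.inl h1)), by rw [h1]; exact hy⟩
      · exact ⟨Or.inr (Or.inr (Or.inr h1)), by rw [h1]; exact hy'⟩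
  rw [h0, h1, Finset.card_pair hxx, Finset.card_pair hyy, Finset.sum_pair hxx, Finset.sum_pair hyy,
    Finset.sum_pair hyy]
  simp only [true_and, add_assoc]

/-- an injective partial map extends to a permutation -/
theorem exists_perm {n : ℕ} (S : Finset (Fin n)) (p : Fin n → Fin n) (hp : Set.InjOn p (S : Set (Fin n))) :
    ∃ π : Equiv.Perm (Fin n), ∀ x ∈ S, π x = p x := by
  obtain ⟨g, hg⟩ := Finset.exists_equiv_extend_of_card_eq (α := Fin n) (β := Fin n)
    (t := Finset.univ) (by simp) (s := S) (f := p) (Finset.subset_univ _) hp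
  exact ⟨g.trans (Equiv.subtypeUnivEquiv (fun x => Finset.mem_univ x)), fun x hx => hg x hx⟩

/-- the vertices of the extension -/
abbrev Pt (n : ℕ) : Type := Fin n × Bool × (Fin n → ZMod 2)

/-- class of a vertex -/
def cls {n : ℕ} (x : Pt n) : Bool := x.2.1

/-- the cross function -/
def cross {n : ℕ} (x y : Pt n) : ZMod 2 := x.2.2 y.1 + y.2.2 x.1

theorem cross_symm {n : ℕ} (x y : Pt n) : cross x y = cross y x := add_comm _ _

/-- valuation of an original vertex -/
def val {n : ℕ} (c : Fin n → Bool) (g : Fin n → Fin n → ZMod 2) (a : Fin n) : Fin n → ZMod 2 :=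
  fun j => if c a = false then g a j else 0

/-- the embedding of the original vertices -/
def emb {n : ℕ} (c : Fin n → Bool) (g : Fin n → Fin n → ZMod 2) (a : Fin n) : Pt n :=
  (a, c a, val c g a)

theorem val_add {n : ℕ} (c : Fin n → Bool) (g : Fin n → Fin n → ZMod 2) (hg : ∀ x y, g x y = g y x)
    (x y : Fin n) (hxy : c x ≠ c y) : val c g x y + val c g y x = g x y := by
  unfold val
  cases hx : c x <;> cases hy : c y <;> simp_all

theorem exists_theta {n : ℕ} (c : Fin n → Bool) (g : Fin n → Fin n → ZMod 2)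
    (hg : ∀ x y, g x y = g y x) (S : Finset (Fin n)) (p : Fin n → Fin n)
    (hp : Set.InjOn p (S : Set (Fin n))) (ε : Bool) (hε : ∀ x ∈ S, c (p x) = xor (c x) ε)
    (s : Fin n → ZMod 2) (hs : ∀ x ∈ S, ∀ y ∈ S, c x ≠ c y → g x y + g (p x) (p y) = s x + s y) :
    ∃ (θ : Pt n ≃ Pt n) (t : Pt n → ZMod 2), (∀ x, cls (θ x) = xor (cls x) ε) ∧
      (∀ x y, cls x ≠ cls y → cross (θ x) (θ y) = cross x y + t x + t y) ∧
      ∀ a ∈ S, θ (emb c g a) = emb c g (p a) := by
  have hπ : ∀ b : Bool, ∃ π : Equiv.Perm (Fin n), ∀ x ∈ S.filter (fun z => c z = b), π x = p x := by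
    intro b
    exact exists_perm _ p (hp.mono (by intro z hz; exact (Finset.mem_filter.1 hz).1))
  choose π hπ using hπ
  have hπ' : ∀ (b : Bool) (x : Fin n), x ∈ S → c x = b → π b x = p x := fun b x hx hb =>
    hπ b x (Finset.mem_filter.2 ⟨hx, hb⟩)
  -- membership
  let inS : Fin n → Bool → Prop := fun a b => a ∈ S ∧ c a = b
  let t0 : Fin n → Bool → ZMod 2 := fun a b => if inS a b then s a else 0
  let F0 : Fin n → Bool → Fin n → ZMod 2 := fun a b j => val c g a j + val c g (p a) (π (!b) j)
  let F : Fin n → Bool → Fin n → ZMod 2 := fun a b j =>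
    if inS a b then F0 a b j else if inS j (!b) then F0 j (!b) a + t0 j (!b) + t0 a b else 0
  have hdbl : ∀ a : ZMod 2, a + a = 0 := by decide
  have hC : ∀ (a : Fin n) (b : Bool) (j : Fin n), F a b j + F j (!b) a = t0 a b + t0 j (!b) := by
    intro a b j
    by_cases h1 : inS a b
    · by_cases h2 : inS j (!b)
      · simp only [F, h1, h2, if_true, t0, F0, Bool.not_not]
        rw [hπ' (!b) j h2.1 h2.2, hπ' b a h1.1 h1.2]
        have hne : c a ≠ c j := by rw [h1.2, h2.2]; cases b <;> simp
        have hne' : c (p a) ≠ c (p j) := by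
          rw [hε a h1.1, hε j h2.1, h1.2, h2.2]; cases b <;> cases ε <;> simp
        rw [← hs a h1.1 j h2.1 hne, ← val_add c g hg a j hne, ← val_add c g hg (p a) (p j) hne']
        ring
      · simp only [F, h1, h2, if_true, if_false, Bool.not_not]
        have := hdbl (F0 a b j)
        linear_combination this
    · by_cases h2 : inS j (!b)
      · simp only [F, h1, h2, if_true, if_false, Bool.not_not]
        have := hdbl (F0 j (!b) a)
        linear_combination this
      · simp only [F, h1, h2, if_false, Bool.not_not, t0]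
  let θ0 : Pt n → Pt n := fun x =>
    (π x.2.1 x.1, xor x.2.1 ε, fun j => x.2.2 ((π (!x.2.1)).symm j) + F x.1 x.2.1 ((π (!x.2.1)).symm j))
  have hinj : Function.Injective θ0 := by
    rintro ⟨a, b, χ⟩ ⟨a', b', χ'⟩ h
    simp only [θ0, Prod.mk.injEq] at h
    obtain ⟨h1, h2, h3⟩ := h
    have hb : b = b' := by
      cases b <;> cases b' <;> cases ε <;> simp_all
    subst hb
    have ha : a = a' := (π b).injective h1
    subst ha
    have hχ : χ = χ' := by
      funext j
      have := congrFun h3 (π (!b) j)
      simpa using this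
    rw [hχ]
  let θ : Pt n ≃ Pt n := Equiv.ofBijective θ0 (Finite.injective_iff_bijective.1 hinj)
  refine ⟨θ, fun x => t0 x.1 x.2.1, fun x => rfl, ?_, ?_⟩
  · rintro ⟨a, b, χ⟩ ⟨a', b', χ'⟩ hne
    have hb : b' = !b := by
      simp only [cls] at hne
      cases b <;> cases b' <;> simp_all
    subst hb
    show cross (θ0 _) (θ0 _) = _
    simp only [θ0, cross, Bool.not_not, Equiv.symm_apply_apply]
    have := hC a b a'
    linear_combination this
  · intro a ha
    show θ0 _ = _
    have hin : inS a (c a) := ⟨ha, rfl⟩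
    simp only [θ0, emb]
    rw [hπ' (c a) a ha rfl, hε a ha]
    refine Prod.ext rfl (Prod.ext rfl ?_)
    funext j
    simp only [F, hin, if_true, F0, Equiv.apply_symm_apply]
    have := hdbl (val c g a ((π (!c a)).symm j))
    linear_combination this

/-- the switching function -/
theorem exists_switch {n : ℕ} (c : Fin n → Bool) (S : Finset (Fin n)) (D : Fin n → Fin n → ZMod 2)
    (hD : ∀ x y, D x y = D y x)
    (h : ∀ x ∈ S, ∀ x' ∈ S, ∀ y ∈ S, ∀ y' ∈ S, c x = false → c x' = false → c y = true → c y' = true →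
      D x y + D x y' + D x' y + D x' y' = 0) :
    ∃ s : Fin n → ZMod 2, ∀ x ∈ S, ∀ y ∈ S, c x ≠ c y → D x y = s x + s y := by
  by_cases h0 : ∃ x0 ∈ S, c x0 = false
  · by_cases h1 : ∃ y0 ∈ S, c y0 = true
    · obtain ⟨x0, hx0, hcx0⟩ := h0
      obtain ⟨y0, hy0, hcy0⟩ := h1
      refine ⟨fun x => if c x = false then D x y0 else D x0 x + D x0 y0, ?_⟩
      have key : ∀ x ∈ S, ∀ y ∈ S, c x = false → c y = true →
          D x y = D x y0 + (D x0 y + D x0 y0) := by
        intro x hx y hy hcx hcy
        have := h x hx x0 hx0 y hy y0 hy0 hcx hcx0 hcy hcy0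
        generalize D x y = A at *
        generalize D x y0 = B at *
        generalize D x0 y = C at *
        generalize D x0 y0 = E at *
        revert this
        revert A B C E
        decide
      intro x hx y hy hne
      cases hcx : c x
      · have hcy : c y = true := by
          rw [hcx] at hne; exact Bool.eq_true_of_not_eq_false (fun h' => hne h'.symm)
        show D x y = (if c x = false then D x y0 else D x0 x + D x0 y0) +
          (if c y = false then D y y0 else D x0 y + D x0 y0)
        rw [if_pos hcx, if_neg (by rw [hcy]; simp)]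
        exact key x hx y hy hcx hcy
      · have hcy : c y = false := by
          rw [hcx] at hne; exact Bool.eq_false_of_not_eq_true (fun h' => hne h'.symm)
        show D x y = (if c x = false then D x y0 else D x0 x + D x0 y0) +
          (if c y = false then D y y0 else D x0 y + D x0 y0)
        rw [if_pos hcy, if_neg (by rw [hcx]; simp), hD x y, key y hy x hx hcy hcx]
        ring
    · refine ⟨fun _ => 0, fun x hx y hy hne => ?_⟩
      exfalso
      apply h1
      cases hcx : c x
      · refine ⟨y, hy, ?_⟩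
        rw [hcx] at hne; exact Bool.eq_true_of_not_eq_false (fun h' => hne h'.symm)
      · exact ⟨x, hx, hcx⟩
  · refine ⟨fun _ => 0, fun x hx y hy hne => ?_⟩
    exfalso
    apply h0
    cases hcx : c x
    · exact ⟨x, hx, hcx⟩
    · refine ⟨y, hy, ?_⟩
      rw [hcx] at hne; exact Bool.eq_false_of_not_eq_true (fun h' => hne h'.symm)

end Pool.Agent.H352_eppa
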