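import Pool.Agent.H352_eppa.Basic

/-!
EPPA for finite three-graphs, part 2: every three-graph comes from a class function and a symmetric
function to `ZMod 2`.
-/

set_option autoImplicit false
open Classical

namespace Pool.Agent.H352_eppa

theorem exists_repr {X : Type} [Nonempty X] (r : X → X → Prop) (H : Finset (Finset X))
    (hr : Equivalence r) (h2 : ∀ x y z, r x y ∨ r y z ∨ r x z)
    (h4 : ∀ e ∈ H, e.card = 4 ∧ ∀ v ∈ e, (e.filter (fun w => r v w)).card = 2)
    (h5 : ∀ S : Finset X, S.card = 5 →
        (∀ v ∈ S, (S.filter (fun w => r v w)).card ≤ 3) →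
          Even (H.filter (fun e => e ⊆ S)).card) :
    ∃ (c : X → Bool) (g : X → X → ZMod 2), (∀ x y, g x y = g y x) ∧
      (∀ x y, r x y ↔ c x = c y) ∧ ∀ e, e ∈ H ↔ IsH c g e := by
  obtain ⟨x0⟩ := ‹Nonempty X›
  set c : X → Bool := fun x => decide (r x0 x) with hcdef
  have hc : ∀ x y, r x y ↔ c x = c y := by
    intro x y
    simp only [hcdef, decide_eq_decide]
    constructor
    · intro h
      exact ⟨fun h' => hr.trans h' h, fun h' => hr.trans h' (hr.symm h)⟩
    · intro h
      by_cases hx : r x0 x
      · exact hr.trans (hr.symm hx) (h.1 hx)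
      · have hy : ¬ r x0 y := fun h' => hx (h.2 h')
        rcases h2 x0 x y with h' | h' | h'
        · exact absurd h' hx
        · exact h'
        · exact absurd h' hy
  have hfil : ∀ (S : Finset X) (v : X), S.filter (fun w => r v w) = S.filter (fun w => c w = c v) := by
    intro S v
    refine Finset.filter_congr fun w _ => ?_
    rw [hc]
    exact eq_comm
  have hcard : ∀ e ∈ H, ∀ b : Bool, (e.filter (fun w => c w = b)).card = 2 := by
    intro e he
    obtain ⟨h4a, h4b⟩ := h4 e he
    have hpos : ∀ b : Bool, (e.filter (fun w => c w = b)).card ≠ 0 → (e.filter (fun w => c w = b)).card = 2 := by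
      intro b hb
      obtain ⟨v, hv⟩ := Finset.card_pos.1 (Nat.pos_of_ne_zero hb)
      rw [Finset.mem_filter] at hv
      have := h4b v hv.1
      rw [hfil, hv.2] at this
      exact this
    have hs := card_split c e false
    simp only [Bool.not_false] at hs
    have hf := hpos false
    have ht := hpos true
    intro b
    cases b <;> omega
  -- the indicator
  set h : X → X → X → X → ZMod 2 := fun x x' y y' => if ({x, x', y, y'} : Finset X) ∈ H then 1 else 0 with hh
  have hsw1 : ∀ x x' y y', h x x' y y' = h y y' x x' := by
    intro x x' y y'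
    have : ({x, x', y, y'} : Finset X) = {y, y', x, x'} := by
      ext z; simp only [Finset.mem_insert, Finset.mem_singleton]; tauto
    simp only [hh, this]
  have hsw2 : ∀ x x' y y', h x x' y y' = h x' x y y' := by
    intro x x' y y'
    have : ({x, x', y, y'} : Finset X) = {x', x, y, y'} := by
      ext z; simp only [Finset.mem_insert, Finset.mem_singleton]; tauto
    simp only [hh, this]
  have hz1 : ∀ x y y', h x x y y' = 0 := by
    intro x y y'
    simp only [hh]
    rw [if_neg]
    intro hmem
    have h1 := (h4 _ hmem).1
    have h2 : ({x, x, y, y'} : Finset X).card ≤ 3 := by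
      rw [Finset.insert_eq_of_mem (Finset.mem_insert_self _ _)]
      exact Finset.card_le_three
    omega
  have hz2 : ∀ x x' y, h x x' y y = 0 := by
    intro x x' y
    rw [hsw1]
    exact hz1 _ _ _
  have hdbl : ∀ a : ZMod 2, a + a = 0 := by decide
  have hadd : ∀ (b : Bool) (x1 x2 x3 y y' : X), c x1 = b → c x2 = b → c x3 = b → c y = !b → c y' = !b →
      h x1 x2 y y' + h x2 x3 y y' + h x1 x3 y y' = 0 := by
    intro b x1 x2 x3 y y' hx1 hx2 hx3 hy hy'
    by_cases hyy : y = y'
    · subst hyy
      rw [hz2, hz2, hz2]; simp
    by_cases h12 : x1 = x2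
    · subst h12
      rw [hz1, zero_add, hdbl]
    by_cases h23 : x2 = x3
    · subst h23
      rw [hz1, add_zero, hdbl]
    by_cases h13 : x1 = x3
    · subst h13
      rw [hz1, add_zero, hsw2 x2 x1, hdbl]
    have hne : ∀ {u v : X}, c u = b → c v = !b → u ≠ v := by
      intro u v hu hv huv
      rw [← huv, hu] at hv
      cases b <;> simp at hv
    set S : Finset X := {x1, x2, x3, y, y'} with hS
    have hS5 : S.card = 5 := by
      rw [hS, Finset.card_insert_of_notMem, Finset.card_insert_of_notMem, Finset.card_insert_of_notMem,
        Finset.card_insert_of_notMem, Finset.card_singleton]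
      · simpa using hyy
      · simp only [Finset.mem_insert, Finset.mem_singleton, not_or]
        exact ⟨hne hx3 hy, hne hx3 hy'⟩
      · simp only [Finset.mem_insert, Finset.mem_singleton, not_or]
        exact ⟨h23, hne hx2 hy, hne hx2 hy'⟩
      · simp only [Finset.mem_insert, Finset.mem_singleton, not_or]
        exact ⟨h12, h13, hne hx1 hy, hne hx1 hy'⟩
    have hSb : S.filter (fun w => c w = b) = {x1, x2, x3} := by
      ext z
      simp only [hS, Finset.mem_filter, Finset.mem_insert, Finset.mem_singleton]
      constructor
      · rintro ⟨h1 | h1 | h1 | h1 | h1, h2⟩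
        · exact Or.inl h1
        · exact Or.inr (Or.inl h1)
        · exact Or.inr (Or.inr h1)
        · rw [h1] at h2; exact absurd rfl (hne h2 hy)
        · rw [h1] at h2; exact absurd rfl (hne h2 hy')
      · rintro (h1 | h1 | h1)
        · rw [h1]; exact ⟨Or.inl rfl, hx1⟩
        · rw [h1]; exact ⟨Or.inr (Or.inl rfl), hx2⟩
        · rw [h1]; exact ⟨Or.inr (Or.inr (Or.inl rfl)), hx3⟩
    have hSb3 : (S.filter (fun w => c w = b)).card = 3 := by
      rw [hSb, Finset.card_eq_three]
      exact ⟨x1, x2, x3, h12, h13, h23, rfl⟩
    have hSn2 : (S.filter (fun w => c w = !b)).card = 2 := by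
      have := card_split c S b
      omega
    have hev := h5 S hS5 (by
      intro v _
      rw [hfil]
      have : c v = b ∨ c v = !b := by cases c v <;> cases b <;> simp
      rcases this with h' | h'
      · rw [h']; omega
      · rw [h']; omega)
    have himg : H.filter (fun e => e ⊆ S) =
        ((({x1, x2, x3} : Finset X)).filter (fun x => S.erase x ∈ H)).image (fun x => S.erase x) := by
      ext e
      simp only [Finset.mem_filter, Finset.mem_image]
      constructor
      · rintro ⟨he, heS⟩
        have hcard4 : e.card = 4 := (h4 e he).1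
        have hd : (S \ e).card = 1 := by
          have := Finset.card_sdiff_add_card_eq_card heS
          omega
        obtain ⟨x, hx⟩ := Finset.card_eq_one.1 hd
        have hxm : x ∈ S \ e := by rw [hx]; simp
        rw [Finset.mem_sdiff] at hxm
        have hee : e = S.erase x := by
          rw [← Finset.sdiff_singleton_eq_erase, ← hx, Finset.sdiff_sdiff_eq_self heS]
        have hxb : c x = b := by
          by_contra hne
          have hfb : e.filter (fun z => c z = b) = S.filter (fun z => c z = b) := by
            rw [hee, Finset.filter_erase, Finset.erase_eq_of_notMem]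
            intro h'
            rw [Finset.mem_filter] at h'
            exact hne h'.2
          have := hcard e he b
          rw [hfb, hSb3] at this
          exact absurd this (by norm_num)
        refine ⟨x, ⟨?_, ?_⟩, hee.symm⟩
        · rw [← hSb, Finset.mem_filter]; exact ⟨hxm.1, hxb⟩
        · rw [← hee]; exact he
      · rintro ⟨x, ⟨-, hx1⟩, rfl⟩
        exact ⟨hx1, Finset.erase_subset _ _⟩
    have hinj : Set.InjOn (fun x => S.erase x)
        ((({x1, x2, x3} : Finset X).filter (fun x => S.erase x ∈ H) : Finset X) : Set X) := by
      intro x hx y hy hxy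
      have hxS : x ∈ S := by
        have h1 : x ∈ ({x1, x2, x3} : Finset X) := (Finset.mem_filter.1 hx).1
        rw [← hSb] at h1
        exact (Finset.mem_filter.1 h1).1
      exact (Finset.erase_inj S hxS).1 hxy
    rw [himg, Finset.card_image_of_injOn hinj, Finset.card_filter] at hev
    have he1 : S.erase x1 = {x2, x3, y, y'} := by
      rw [hS, Finset.erase_insert]
      simp only [Finset.mem_insert, Finset.mem_singleton, not_or]
      exact ⟨h12, h13, hne hx1 hy, hne hx1 hy'⟩
    have he2 : S.erase x2 = {x1, x3, y, y'} := by
      have : S = {x2, x1, x3, y, y'} := by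
        rw [hS]; ext z; simp only [Finset.mem_insert, Finset.mem_singleton]; tauto
      rw [this, Finset.erase_insert]
      simp only [Finset.mem_insert, Finset.mem_singleton, not_or]
      exact ⟨Ne.symm h12, h23, hne hx2 hy, hne hx2 hy'⟩
    have he3 : S.erase x3 = {x1, x2, y, y'} := by
      have : S = {x3, x1, x2, y, y'} := by
        rw [hS]; ext z; simp only [Finset.mem_insert, Finset.mem_singleton]; tauto
      rw [this, Finset.erase_insert]
      simp only [Finset.mem_insert, Finset.mem_singleton, not_or]
      exact ⟨Ne.symm h13, Ne.symm h23, hne hx3 hy, hne hx3 hy'⟩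
    rw [Finset.sum_insert (by simp [h12, h13]), Finset.sum_insert (by simp [h23]), Finset.sum_singleton,
      he1, he2, he3] at hev
    rw [even_iff_two_dvd, ← ZMod.natCast_eq_zero_iff] at hev
    push_cast at hev
    simp only [hh]
    linear_combination hev
  -- base points
  have hbase : ∀ b : Bool, ∃ z : X, (∃ w, c w = b) → c z = b := by
    intro b
    by_cases hb : ∃ w, c w = b
    · obtain ⟨w, hw⟩ := hb
      exact ⟨w, fun _ => hw⟩
    · exact ⟨x0, fun h' => absurd h' hb⟩
  choose base hbase using hbase
  set g : X → X → ZMod 2 := fun x y => h (base (c x)) x (base (c y)) y with hg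
  have hkey : ∀ (b : Bool) (x x' y y' : X), c x = b → c x' = b → c y = !b → c y' = !b →
      h x x' y y' = g x y + g x y' + g x' y + g x' y' := by
    intro b x x' y y' hx hx' hy hy'
    have hb1 : c (base b) = b := hbase b ⟨x, hx⟩
    have hb2 : c (base (!b)) = !b := hbase (!b) ⟨y, hy⟩
    simp only [hg, hx, hx', hy, hy']
    have a1 := hadd (!b) (base (!b)) y y' (base b) x hb2 hy hy' (by simpa using hb1) (by simpa using hx)
    have a2 := hadd (!b) (base (!b)) y y' (base b) x' hb2 hy hy' (by simpa using hb1) (by simpa using hx')
    have a3 := hadd b (base b) x x' y y' hb1 hx hx' hy hy'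
    rw [hsw1 (base (!b)) y, hsw1 y y', hsw1 (base (!b)) y'] at a1 a2
    generalize h (base b) x (base (!b)) y = A at *
    generalize h (base b) x (base (!b)) y' = B at *
    generalize h (base b) x' (base (!b)) y = C at *
    generalize h (base b) x' (base (!b)) y' = D at *
    generalize h (base b) x y y' = E at *
    generalize h (base b) x' y y' = F at *
    generalize h x x' y y' = G at *
    revert a1 a2 a3
    revert A B C D E F G
    decide
  refine ⟨c, g, ?_, hc, ?_⟩
  · intro x y
    simp only [hg]
    exact hsw1 _ _ _ _
  · intro e
    have hmain : ∀ (e : Finset X), (e.filter (fun w => c w = false)).card = 2 →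
        (e.filter (fun w => c w = true)).card = 2 → (e ∈ H ↔ q c g e = 1) := by
      intro e h0 h1
      obtain ⟨x, x', hxx, he0⟩ := Finset.card_eq_two.1 h0
      obtain ⟨y, y', hyy, he1⟩ := Finset.card_eq_two.1 h1
      have hx : c x = false := by
        have : x ∈ e.filter (fun w => c w = false) := by rw [he0]; simp
        exact (Finset.mem_filter.1 this).2
      have hx' : c x' = false := by
        have : x' ∈ e.filter (fun w => c w = false) := by rw [he0]; simp
        exact (Finset.mem_filter.1 this).2
      have hy : c y = true := by
        have : y ∈ e.filter (fun w => c w = true) := by rw [he1]; simp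
        exact (Finset.mem_filter.1 this).2
      have hy' : c y' = true := by
        have : y' ∈ e.filter (fun w => c w = true) := by rw [he1]; simp
        exact (Finset.mem_filter.1 this).2
      have hee : e = {x, x', y, y'} := by
        ext z
        have hz0 : z ∈ e.filter (fun w => c w = false) ↔ z ∈ ({x, x'} : Finset X) := by rw [he0]
        have hz1 : z ∈ e.filter (fun w => c w = true) ↔ z ∈ ({y, y'} : Finset X) := by rw [he1]
        simp only [Finset.mem_filter, Finset.mem_insert, Finset.mem_singleton] at hz0 hz1 ⊢
        cases hcz : c z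
        · rw [hcz] at hz0 hz1
          simp at hz0 hz1
          tauto
        · rw [hcz] at hz0 hz1
          simp at hz0 hz1
          tauto
      have hq : q c g e = h x x' y y' := by
        unfold q
        rw [he0, he1, Finset.sum_pair hxx, Finset.sum_pair hyy, Finset.sum_pair hyy,
          hkey false x x' y y' hx hx' hy hy']
        ring
      rw [hq, hh]
      simp only
      rw [← hee]
      by_cases hm : e ∈ H
      · simp [hm]
      · simp [hm]
    constructor
    · intro he
      have h0 := hcard e he false
      have h1 := hcard e he true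
      exact ⟨h0, h1, (hmain e h0 h1).1 he⟩
    · rintro ⟨h0, h1, h2⟩
      exact (hmain e h0 h1).2 h2

end Pool.Agent.H352_eppa
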